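import Mathlib

/-!
# Nonvanishing of combinations of multiplicative functions at small coprime integers

Job ST-Z of helper760, Mathlib part.
-/

set_option autoImplicit false

namespace Pool.Agent.Y109.ST

/-- many primes in short ranges which do not divide `h` -/
lemma primes (r m h : ℕ) (hh : 1 ≤ h) (hm : h < (2 ^ m) ^ (m + 1)) :
    ∃ q : Fin r → ℕ, Function.Injective q ∧ ∀ t, (q t).Prime ∧ 2 ^ m < q t ∧
      q t ≤ 2 ^ (2 * m + r) ∧ ¬ q t ∣ h := by
  classical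
  have hp : ∀ k : ℕ, ∃ p, Nat.Prime p ∧ 2 ^ k < p ∧ p ≤ 2 * 2 ^ k := fun k =>
    Nat.exists_prime_lt_and_le_two_mul (2 ^ k) (by positivity)
  choose p hp1 hp2 hp3 using hp
  have hmono : StrictMono p := by
    apply strictMono_nat_of_lt_succ
    intro k
    have h1 := hp3 k
    have h2 := hp2 (k + 1)
    rw [pow_succ] at h2
    omega
  set I := Finset.Ico m (m + (m + r)) with hI
  set A := I.filter fun k => ¬ p k ∣ h with hA
  set B := I.filter fun k => p k ∣ h with hB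
  have hcard : B.card + A.card = m + r := by
    rw [hA, hB, Finset.card_filter_add_card_filter_not, hI, Nat.card_Ico]
    omega
  have hAr : r ≤ A.card := by
    by_contra hlt
    have hBc : m + 1 ≤ B.card := by omega
    have hdvd' : ∀ S : Finset ℕ, (∀ k ∈ S, p k ∣ h) → ∏ k ∈ S, p k ∣ h := by
      intro S
      induction S using Finset.induction_on with
      | empty => intro _; simp
      | insert a S ha ih =>
        intro hS
        rw [Finset.prod_insert ha]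
        refine Nat.Coprime.mul_dvd_of_dvd_of_dvd ?_ (hS a (Finset.mem_insert_self a S))
          (ih fun k hk => hS k (Finset.mem_insert_of_mem hk))
        apply Nat.Coprime.prod_right
        intro k hk
        exact (Nat.coprime_primes (hp1 a) (hp1 k)).2 fun h => ha (hmono.injective h ▸ hk)
    have hdvd : ∏ k ∈ B, p k ∣ h := hdvd' B fun k hk => (Finset.mem_filter.1 hk).2
    have h1 : ∏ k ∈ B, p k ≤ h := Nat.le_of_dvd hh hdvd
    have h2 : (2 ^ m) ^ B.card ≤ ∏ k ∈ B, p k := by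
      rw [← Finset.prod_const]
      refine Finset.prod_le_prod' fun k hk => ?_
      have hk' := (Finset.mem_filter.1 hk).1
      rw [hI, Finset.mem_Ico] at hk'
      exact (Nat.pow_le_pow_right (by norm_num) hk'.1).trans (hp2 k).le
    have h3 : (2 ^ m) ^ (m + 1) ≤ (2 ^ m) ^ B.card :=
      Nat.pow_le_pow_right (by positivity) hBc
    omega
  obtain ⟨A', hA', hA'c⟩ := Finset.exists_subset_card_eq hAr
  let e := A'.orderEmbOfFin hA'c
  refine ⟨fun t => p (e t), fun a b hab => e.injective (hmono.injective hab), fun t => ?_⟩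
  have ht : e t ∈ A := hA' (Finset.orderEmbOfFin_mem A' hA'c t)
  rw [hA, Finset.mem_filter, hI, Finset.mem_Ico] at ht
  refine ⟨hp1 _, ?_, ?_, ht.2⟩
  · exact lt_of_le_of_lt (Nat.pow_le_pow_right (by norm_num) ht.1.1) (hp2 _)
  · refine (hp3 _).trans ?_
    rw [← pow_succ']
    exact Nat.pow_le_pow_right (by norm_num) (by omega)

/-- the algebraic part -/
lemma comb (r : ℕ) (c : Fin (r + 1) → ℕ → ℚ) (h1 : ∀ i, c i 1 = 1)
    (hmul : ∀ i a b, Nat.Coprime a b → c i (a * b) = c i a * c i b) (q : Fin r → ℕ)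
    (hq : Function.Injective q) (hqp : ∀ t, (q t).Prime)
    (hne : ∀ t, ∀ i j, i ≠ j → c i (q t) ≠ c j (q t)) (b : Fin (r + 1) → ℚ) (hb : b ≠ 0) :
    ∃ S : Finset (Fin r), ∑ i, b i * c i (∏ t ∈ S, q t) ≠ 0 := by
  classical
  obtain ⟨i0, hi0⟩ : ∃ i0, b i0 ≠ 0 := by
    by_contra hcon
    push Not at hcon
    exact hb (funext hcon)
  have hprod : ∀ i, ∀ S : Finset (Fin r), c i (∏ t ∈ S, q t) = ∏ t ∈ S, c i (q t) := by
    intro i S
    induction S using Finset.induction_on with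
    | empty => simpa using h1 i
    | insert a S ha ih =>
      rw [Finset.prod_insert ha, Finset.prod_insert ha, hmul, ih]
      apply Nat.Coprime.prod_right
      intro t ht
      exact (Nat.coprime_primes (hqp a) (hqp t)).2 fun h => ha (hq h ▸ ht)
  by_contra hcon
  push Not at hcon
  have hsum : ∑ i, b i * ∏ t, (c i (q t) - c (i0.succAbove t) (q t)) =
      b i0 * ∏ t, (c i0 (q t) - c (i0.succAbove t) (q t)) := by
    rw [Finset.sum_eq_single i0]
    · intro i _ hi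
      obtain ⟨t, ht⟩ := Fin.exists_succAbove_eq hi
      rw [Finset.prod_eq_zero (Finset.mem_univ t), mul_zero]
      rw [ht, sub_self]
    · intro hi
      exact absurd (Finset.mem_univ i0) hi
  have hnz : b i0 * ∏ t, (c i0 (q t) - c (i0.succAbove t) (q t)) ≠ 0 := by
    refine mul_ne_zero hi0 (Finset.prod_ne_zero_iff.2 fun t _ => ?_)
    exact sub_ne_zero.2 (hne t _ _ (Fin.succAbove_ne i0 t).symm)
  apply hnz
  rw [← hsum]
  have hexp : ∀ i, ∏ t, (c i (q t) - c (i0.succAbove t) (q t)) =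
      ∑ S ∈ (Finset.univ : Finset (Fin r)).powerset, (∏ t ∈ S, c i (q t)) *
        ∏ t ∈ Finset.univ \ S, -c (i0.succAbove t) (q t) := by
    intro i
    rw [← Finset.prod_add]
    exact Finset.prod_congr rfl fun t _ => by ring
  calc ∑ i, b i * ∏ t, (c i (q t) - c (i0.succAbove t) (q t))
      = ∑ i, ∑ S ∈ (Finset.univ : Finset (Fin r)).powerset,
          (∏ t ∈ Finset.univ \ S, -c (i0.succAbove t) (q t)) * (b i * c i (∏ t ∈ S, q t)) := by
        refine Finset.sum_congr rfl fun i _ => ?_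
        rw [hexp, Finset.mul_sum]
        refine Finset.sum_congr rfl fun S _ => ?_
        rw [hprod]
        ring
    _ = ∑ S ∈ (Finset.univ : Finset (Fin r)).powerset,
          (∏ t ∈ Finset.univ \ S, -c (i0.succAbove t) (q t)) *
            ∑ i, b i * c i (∏ t ∈ S, q t) := by
        rw [Finset.sum_comm]
        refine Finset.sum_congr rfl fun S _ => ?_
        rw [Finset.mul_sum]
    _ = 0 := by
        refine Finset.sum_eq_zero fun S _ => ?_
        rw [hcon S, mul_zero]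

theorem zcore (r l0 : ℕ) (c : Fin (r + 1) → ℕ → ℚ) (h1 : ∀ i, c i 1 = 1)
    (hmul : ∀ i a b, Nat.Coprime a b → c i (a * b) = c i a * c i b)
    (hne : ∀ l, l.Prime → l0 < l → ∀ i j, i ≠ j → c i l ≠ c j l) :
    ∃ T : ℝ, 0 < T ∧ ∀ s : ℝ, T ≤ s → ∀ h : ℕ, 1 ≤ h → Real.log h ≤ ((r : ℝ) + 1) ^ 2 * s →
      ∀ b : Fin (r + 1) → ℚ, b ≠ 0 →
        ∃ l : ℕ, 1 ≤ l ∧ Real.log l ≤ s ∧ Nat.Coprime h l ∧ ∑ i, b i * c i l ≠ 0 := by
  classical
  rcases Nat.eq_zero_or_pos r with rfl | hr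
  · refine ⟨1, one_pos, fun s hs h _ _ b hb => ⟨1, le_rfl, ?_, Nat.coprime_one_right h, ?_⟩⟩
    · rw [Nat.cast_one, Real.log_one]
      linarith
    · obtain ⟨i0, hi0⟩ : ∃ i0, b i0 ≠ 0 := by
        by_contra hcon
        push Not at hcon
        exact hb (funext hcon)
      have h0 : i0 = 0 := Fin.ext (by omega)
      subst h0
      rw [Fin.sum_univ_one, h1, mul_one]
      exact hi0
  have hr1 : (1 : ℝ) ≤ r := by exact_mod_cast hr
  have hl0 : (0 : ℝ) ≤ l0 := Nat.cast_nonneg _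
  refine ⟨1000 * ((r : ℝ) + 1) ^ 4 * ((l0 : ℝ) + 1), by positivity, ?_⟩
  intro s hs h hh hlog b hb
  have hR4 : (1 : ℝ) ≤ ((r : ℝ) + 1) ^ 4 := one_le_pow₀ (by linarith)
  have hRr : (r : ℝ) ≤ ((r : ℝ) + 1) ^ 4 := by
    have : (r : ℝ) + 1 ≤ ((r : ℝ) + 1) ^ 4 := le_self_pow₀ (by linarith) (by norm_num)
    linarith
  have hRr2 : (r : ℝ) ^ 2 ≤ ((r : ℝ) + 1) ^ 4 := by
    have h2 : (r : ℝ) ^ 2 ≤ ((r : ℝ) + 1) ^ 2 := pow_le_pow_left₀ (by linarith) (by linarith) 2
    have h3 : ((r : ℝ) + 1) ^ 2 ≤ ((r : ℝ) + 1) ^ 4 := pow_le_pow_right₀ (by linarith) (by norm_num)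
    linarith
  have hs1 : 1000 * ((r : ℝ) + 1) ^ 4 ≤ s := by
    have : 1000 * ((r : ℝ) + 1) ^ 4 * 1 ≤ 1000 * ((r : ℝ) + 1) ^ 4 * ((l0 : ℝ) + 1) :=
      mul_le_mul_of_nonneg_left (by linarith) (by positivity)
    linarith
  have hs0 : 0 < s := by linarith
  have hs2 : 1000 * (r : ℝ) * ((l0 : ℝ) + 1) ≤ s := by
    have : 1000 * (r : ℝ) * ((l0 : ℝ) + 1) ≤ 1000 * ((r : ℝ) + 1) ^ 4 * ((l0 : ℝ) + 1) :=
      mul_le_mul_of_nonneg_right (by linarith) (by linarith)
    linarith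
  -- the parameter
  obtain ⟨m, hm⟩ : ∃ m : ℕ, m = ⌊s / (4 * r)⌋₊ := ⟨_, rfl⟩
  have h4r : (0 : ℝ) < 4 * r := by linarith
  have hm1 : (m : ℝ) ≤ s / (4 * r) := by
    rw [hm]
    exact Nat.floor_le (div_nonneg hs0.le h4r.le)
  have hm2 : s / (4 * r) < m + 1 := by
    rw [hm]
    exact Nat.lt_floor_add_one _
  have hm1' : (m : ℝ) * (4 * r) ≤ s := (le_div_iff₀ h4r).1 hm1
  have hm2' : s < (m + 1) * (4 * r) := (div_lt_iff₀ h4r).1 hm2
  have hml0 : l0 ≤ m := by
    by_contra hlt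
    have h2 : (m : ℝ) + 1 ≤ l0 := by exact_mod_cast Nat.lt_of_not_le hlt
    nlinarith
  have hlog2 : (1 : ℝ) / 2 < Real.log 2 := by
    have := Real.log_two_gt_d9
    linarith
  have hlog2' : Real.log 2 < 1 := by
    have := Real.log_two_lt_d9
    linarith
  have hm8 : s ≤ (m : ℝ) * (8 * r) := by nlinarith
  have hhm : h < (2 ^ m) ^ (m + 1) := by
    by_contra hge
    push Not at hge
    have h2 : Real.log (((2 ^ m) ^ (m + 1) : ℕ) : ℝ) ≤ Real.log h :=
      Real.log_le_log (by positivity) (by exact_mod_cast hge)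
    have h3 : Real.log (((2 ^ m) ^ (m + 1) : ℕ) : ℝ) = ((m : ℝ) + 1) * (m * Real.log 2) := by
      push_cast
      rw [Real.log_pow, Real.log_pow]
      push_cast
      ring
    rw [h3] at h2
    have hm0 : (0 : ℝ) ≤ m := Nat.cast_nonneg _
    have h4 : (m : ℝ) * m / 2 ≤ ((r : ℝ) + 1) ^ 2 * s := by
      have h5 : (m : ℝ) * m / 2 ≤ ((m : ℝ) + 1) * (m * Real.log 2) := by
        have h6 : (m : ℝ) * (1 / 2) ≤ m * Real.log 2 :=
          mul_le_mul_of_nonneg_left hlog2.le hm0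
        nlinarith
      linarith
    -- `m ≥ s / (8 r)`, so `m² / 2 ≥ s² / (128 r²)`
    have h6 : s * s ≤ ((m : ℝ) * (8 * r)) * ((m : ℝ) * (8 * r)) :=
      mul_le_mul hm8 hm8 hs0.le (by positivity)
    have h7 : s * s ≤ 128 * (r : ℝ) ^ 2 * (((r : ℝ) + 1) ^ 2 * s) := by
      have h8 : ((m : ℝ) * (8 * r)) * ((m : ℝ) * (8 * r)) = 128 * (r : ℝ) ^ 2 * (m * m / 2) := by
        ring
      rw [h8] at h6
      exact h6.trans (mul_le_mul_of_nonneg_left h4 (by positivity))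
    have h9 : s ≤ 128 * (r : ℝ) ^ 2 * ((r : ℝ) + 1) ^ 2 := by
      have h10 : s * s ≤ (128 * (r : ℝ) ^ 2 * ((r : ℝ) + 1) ^ 2) * s := by linarith
      exact le_of_mul_le_mul_right h10 hs0
    have h11 : (r : ℝ) ^ 2 * ((r : ℝ) + 1) ^ 2 ≤ ((r : ℝ) + 1) ^ 4 := by
      have h12 : (r : ℝ) ^ 2 ≤ ((r : ℝ) + 1) ^ 2 := pow_le_pow_left₀ (by linarith) (by linarith) 2
      calc (r : ℝ) ^ 2 * ((r : ℝ) + 1) ^ 2 ≤ ((r : ℝ) + 1) ^ 2 * ((r : ℝ) + 1) ^ 2 :=
            mul_le_mul_of_nonneg_right h12 (by positivity)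
        _ = ((r : ℝ) + 1) ^ 4 := by ring
    linarith
  obtain ⟨q, hq, hqq⟩ := primes r m h hh hhm
  have hql0 : ∀ t, l0 < q t := fun t =>
    lt_of_le_of_lt hml0 (lt_of_le_of_lt (Nat.lt_two_pow_self).le (hqq t).2.1)
  obtain ⟨S, hS⟩ := comb r c h1 hmul q hq (fun t => (hqq t).1)
    (fun t i j hij => hne _ (hqq t).1 (hql0 t) i j hij) b hb
  have hpos : ∀ t, (0 : ℝ) < q t := fun t => by exact_mod_cast (hqq t).1.pos
  refine ⟨∏ t ∈ S, q t, Finset.prod_pos fun t _ => (hqq t).1.pos, ?_, ?_, hS⟩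
  · rw [Nat.cast_prod, Real.log_prod fun t _ => (hpos t).ne']
    have h2 : ∀ t ∈ S, Real.log (q t) ≤ s / r := by
      intro t _
      have h3 : (q t : ℝ) ≤ 2 ^ (2 * m + r) := by exact_mod_cast (hqq t).2.2.1
      have h4 : Real.log (q t) ≤ ((2 * m + r : ℕ) : ℝ) * Real.log 2 := by
        rw [← Real.log_pow]
        exact Real.log_le_log (hpos t) h3
      have h5 : ((2 * m + r : ℕ) : ℝ) * Real.log 2 ≤ ((2 * m + r : ℕ) : ℝ) * 1 :=
        mul_le_mul_of_nonneg_left hlog2'.le (Nat.cast_nonneg _)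
      have h6 : ((2 * m + r : ℕ) : ℝ) ≤ s / r := by
        rw [le_div_iff₀ (by linarith)]
        push_cast
        nlinarith
      linarith
    refine (Finset.sum_le_sum h2).trans ?_
    rw [Finset.sum_const, nsmul_eq_mul]
    have h3 : (S.card : ℝ) ≤ r := by
      have := Finset.card_le_univ S
      rw [Fintype.card_fin] at this
      exact_mod_cast this
    have h4 : (0 : ℝ) ≤ s / r := div_nonneg hs0.le (by linarith)
    calc (S.card : ℝ) * (s / r) ≤ r * (s / r) := mul_le_mul_of_nonneg_right h3 h4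
      _ = s := by field_simp
  · apply Nat.Coprime.prod_right
    intro t _
    exact (((hqq t).1.coprime_iff_not_dvd).2 (hqq t).2.2.2).symm

end Pool.Agent.Y109.ST
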