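import Pool.Agent.Y760.ST.Stm
import Pool.Agent.Y109.ST.ZCore

/-!
# Nonvanishing of combinations of multiplicative functions at small coprime integers

Job ST-Z of helper760.
-/

set_option autoImplicit false

namespace Pool.Agent.Y109.ST

theorem zz : Pool.Agent.Y760.ST.ZStmt := by
  intro r l0 c h1 hmul hne
  exact zcore r l0 c h1 hmul hne

end Pool.Agent.Y109.ST
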